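import Mathlib

/-! Sums of three squares (Legendre), by Dirichlet's proof. -/

set_option autoImplicit false

namespace Pool.Agent.Lib_helper47.G3

/-- the ternary form with Gram matrix `(a, r, q; r, b, p; q, p, c)` is the Gram matrix of three
integer vectors -/
def Rz (a b c p q r : ℤ) : Prop :=
  ∃ u1 u2 u3 v1 v2 v3 w1 w2 w3 : ℤ, u1 ^ 2 + u2 ^ 2 + u3 ^ 2 = a ∧ v1 ^ 2 + v2 ^ 2 + v3 ^ 2 = b ∧
    w1 ^ 2 + w2 ^ 2 + w3 ^ 2 = c ∧ v1 * w1 + v2 * w2 + v3 * w3 = p ∧
    u1 * w1 + u2 * w2 + u3 * w3 = q ∧ u1 * v1 + u2 * v2 + u3 * v3 = r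

theorem Rz.swap12 {a b c p q r : ℤ} (h : Rz b a c q p r) : Rz a b c p q r := by
  obtain ⟨u1, u2, u3, v1, v2, v3, w1, w2, w3, h1, h2, h3, h4, h5, h6⟩ := h
  exact ⟨v1, v2, v3, u1, u2, u3, w1, w2, w3, h2, h1, h3, h5, h4, by linarith⟩

theorem Rz.swap23 {a b c p q r : ℤ} (h : Rz a c b p r q) : Rz a b c p q r := by
  obtain ⟨u1, u2, u3, v1, v2, v3, w1, w2, w3, h1, h2, h3, h4, h5, h6⟩ := h
  exact ⟨u1, u2, u3, w1, w2, w3, v1, v2, v3, h1, h3, h2, by linarith, h6, h5⟩

/-- shift of the second vector by `t` times the first -/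
theorem Rz.shift12 {a b c p q r : ℤ} (t : ℤ)
    (h : Rz a (b + 2 * t * r + t ^ 2 * a) c (p + t * q) q (r + t * a)) : Rz a b c p q r := by
  obtain ⟨u1, u2, u3, v1, v2, v3, w1, w2, w3, h1, h2, h3, h4, h5, h6⟩ := h
  refine ⟨u1, u2, u3, v1 - t * u1, v2 - t * u2, v3 - t * u3, w1, w2, w3, h1, ?_, h3, ?_, h5, ?_⟩
  · linear_combination h2 - 2 * t * h6 + t ^ 2 * h1
  · linear_combination h4 - t * h5
  · linear_combination h6 - t * h1

/-- shift of the third vector by `t` times the second -/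
theorem Rz.shift23 {a b c p q r : ℤ} (t : ℤ)
    (h : Rz a b (c + 2 * t * p + t ^ 2 * b) (p + t * b) (q + t * r) r) : Rz a b c p q r := by
  obtain ⟨u1, u2, u3, v1, v2, v3, w1, w2, w3, h1, h2, h3, h4, h5, h6⟩ := h
  refine ⟨u1, u2, u3, v1, v2, v3, w1 - t * v1, w2 - t * v2, w3 - t * v3, h1, h2, ?_, ?_, ?_, h6⟩
  · linear_combination h3 - 2 * t * h4 + t ^ 2 * h2
  · linear_combination h4 - t * h2
  · linear_combination h5 - t * h6

/-- shift of the third vector by `t` times the first -/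
theorem Rz.shift13 {a b c p q r : ℤ} (t : ℤ)
    (h : Rz a b (c + 2 * t * q + t ^ 2 * a) (p + t * r) (q + t * a) r) : Rz a b c p q r := by
  obtain ⟨u1, u2, u3, v1, v2, v3, w1, w2, w3, h1, h2, h3, h4, h5, h6⟩ := h
  refine ⟨u1, u2, u3, v1, v2, v3, w1 - t * u1, w2 - t * u2, w3 - t * u3, h1, h2, ?_, ?_, ?_, h6⟩
  · linear_combination h3 - 2 * t * h5 + t ^ 2 * h1
  · linear_combination h4 - t * h6
  · linear_combination h5 - t * h1

theorem exists_shift (x : ℤ) {m : ℤ} (hm : 0 < m) : ∃ t : ℤ, -m ≤ 2 * (x + t * m) ∧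
    2 * (x + t * m) ≤ m := by
  refine ⟨-((2 * x + m) / (2 * m)), ?_, ?_⟩
  · have h1 := Int.emod_add_mul_ediv (2 * x + m) (2 * m)
    have h2 := Int.emod_nonneg (2 * x + m) (b := 2 * m) (by omega)
    nlinarith
  · have h1 := Int.emod_add_mul_ediv (2 * x + m) (2 * m)
    have h2 := Int.emod_lt_of_pos (2 * x + m) (b := 2 * m) (by omega)
    nlinarith

/-- every positive definite ternary form of determinant one is a sum of three squares of linear
forms -/
theorem rz_all : ∀ (A M : ℕ) (a b c p q r : ℤ), a = A → a * b - r ^ 2 = M → 0 < a →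
    0 < a * b - r ^ 2 → a * b * c + 2 * p * q * r - a * p ^ 2 - b * q ^ 2 - c * r ^ 2 = 1 →
    Rz a b c p q r := by
  intro A
  induction A using Nat.strong_induction_on with
  | _ A ihA =>
    intro M
    induction M using Nat.strong_induction_on with
    | _ M ihM =>
      intro a b c p q r hA hM ha hm hd
      -- first shift
      obtain ⟨t, ht1, ht2⟩ := exists_shift r ha
      apply Rz.shift12 t
      set r1 := r + t * a with hr1
      set b1 := b + 2 * t * r + t ^ 2 * a with hb1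
      set p1 := p + t * q with hp1
      have hm1 : a * b1 - r1 ^ 2 = a * b - r ^ 2 := by rw [hb1, hr1]; ring
      have hd1 : a * b1 * c + 2 * p1 * q * r1 - a * p1 ^ 2 - b1 * q ^ 2 - c * r1 ^ 2 = 1 := by
        rw [hb1, hr1, hp1]; linear_combination hd
      clear_value r1 b1 p1
      rw [← hm1] at hM hm
      have hb0 : 0 < b1 := by
        by_contra hcon
        push Not at hcon
        nlinarith [sq_nonneg r1]
      by_cases hba : b1 < a
      · apply Rz.swap12
        refine ihA b1.toNat (by omega) (b1 * a - r1 ^ 2).toNat b1 a c q p1 r1 (by omega) ?_ hb0 ?_ ?_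
        · rw [Int.toNat_of_nonneg]; rw [mul_comm]; exact hm.le
        · rw [mul_comm]; exact hm
        · linear_combination hd1
      push Not at hba
      -- second shift
      obtain ⟨s, hs1, hs2⟩ := exists_shift (a * p1 - q * r1) hm
      apply Rz.shift23 s
      set c2 := c + 2 * s * p1 + s ^ 2 * b1 with hc2
      set p2 := p1 + s * b1 with hp2
      set q2 := q + s * r1 with hq2
      have hQ : a * p2 - q2 * r1 = a * p1 - q * r1 + s * (a * b1 - r1 ^ 2) := by
        rw [hp2, hq2]; ring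
      have hd2 : a * b1 * c2 + 2 * p2 * q2 * r1 - a * p2 ^ 2 - b1 * q2 ^ 2 - c2 * r1 ^ 2 = 1 := by
        rw [hc2, hp2, hq2]; linear_combination hd1
      rw [← hQ] at hs1 hs2
      clear_value c2 p2 q2
      have hdd : (a * b1 - r1 ^ 2) * (a * c2 - q2 ^ 2) - (a * p2 - q2 * r1) ^ 2 = a := by
        linear_combination a * hd2
      have hR : 0 < a * c2 - q2 ^ 2 := by
        by_contra hcon
        push Not at hcon
        nlinarith [sq_nonneg (a * p2 - q2 * r1)]
      by_cases hRm : a * c2 - q2 ^ 2 < a * b1 - r1 ^ 2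
      · apply Rz.swap23
        refine ihM (a * c2 - q2 ^ 2).toNat (by omega) a c2 b1 p2 r1 q2 hA (by omega) ha hR ?_
        linear_combination hd2
      push Not at hRm
      -- now everything is small
      have h3 : 3 * a ^ 2 ≤ 4 * (a * b1 - r1 ^ 2) := by
        have h4 : 4 * r1 ^ 2 ≤ a ^ 2 := by nlinarith
        nlinarith
      set m := a * b1 - r1 ^ 2 with hmdef
      have h5 : 3 * m ^ 2 ≤ 4 * a := by
        have h6 : 4 * (a * p2 - q2 * r1) ^ 2 ≤ m ^ 2 := by nlinarith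
        nlinarith
      have ha1 : a = 1 := by
        by_contra hne
        have ha2 : 2 ≤ a := by omega
        have h7 : 3 * a ≤ 2 * m := by nlinarith
        nlinarith
      subst ha1
      have hm1' : m = 1 := by
        by_contra hne
        have : 2 ≤ m := by omega
        nlinarith
      have hr0 : r1 = 0 := by omega
      subst hr0
      have hb1' : b1 = 1 := by
        rw [hm1'] at hmdef; linarith
      subst hb1'
      have hp0 : p2 = 0 := by
        rw [hm1'] at hs1 hs2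
        have e1 : (1 : ℤ) * p2 - q2 * 0 = p2 := by ring
        rw [e1] at hs1 hs2
        omega
      subst hp0
      apply Rz.shift13 (-q2)
      refine ⟨1, 0, 0, 0, 1, 0, 0, 0, 1, by norm_num, by norm_num, ?_, by ring, by ring, by ring⟩
      linear_combination -hd2

/-- the form belonging to a square root of `-b` modulo `b n - 1` -/
theorem three_of_sqrt {n b x : ℤ} (hb : 0 < b) (hbn : 1 < b * n) (hx : b * n - 1 ∣ x ^ 2 + b) :
    ∃ y z w : ℤ, y ^ 2 + z ^ 2 + w ^ 2 = n := by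
  obtain ⟨a, ha⟩ := hx
  -- Gram matrix `(a, x, 1; x, b n - 1, 0; 1, 0, n)`
  have ha0 : 0 < a := by
    by_contra hcon
    push Not at hcon
    nlinarith [sq_nonneg x]
  have h1 : a * (b * n - 1) - x ^ 2 = b := by linarith
  have h := rz_all a.toNat b.toNat a (b * n - 1) n 0 1 x (by omega) (by omega) ha0 (by omega)
    (by linear_combination n * h1)
  obtain ⟨u1, u2, u3, v1, v2, v3, w1, w2, w3, -, -, h3, -⟩ := h
  exact ⟨w1, w2, w3, h3⟩

open NumberTheorySymbols in
/-- a prime `p` and an odd `b` with `p = 1` or `b = 3` modulo four: `-b` is a square modulo `2 p`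
as soon as the symbol of `p` modulo `b` is one -/
theorem sqrt_of_symbol {p b : ℕ} (hp : p.Prime) (hp2 : p % 2 = 1) (hb : b % 2 = 1)
    (h4 : p % 4 = 1 ∨ b % 4 = 3) (hj : jacobiSym (p : ℤ) b = 1) :
    ∃ x : ℤ, (2 * p : ℤ) ∣ x ^ 2 + b := by
  have : Fact p.Prime := ⟨hp⟩
  have hpo : Odd p := Nat.odd_iff.2 hp2
  have hbo : Odd b := Nat.odd_iff.2 hb
  have h1 : jacobiSym (-(b : ℤ)) p = 1 := by
    rw [jacobiSym.neg _ hpo]
    have hp4 : p % 4 = 1 ∨ p % 4 = 3 := by omega
    rcases hp4 with hp4 | hp4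
    · rw [ZMod.χ₄_nat_one_mod_four hp4, one_mul,
        jacobiSym.quadratic_reciprocity_one_mod_four' hbo hp4, hj]
    · have hb4 : b % 4 = 3 := by omega
      rw [ZMod.χ₄_nat_three_mod_four hp4,
        jacobiSym.quadratic_reciprocity_three_mod_four hb4 hp4, hj]
      norm_num
  obtain ⟨y, hy⟩ := ZMod.isSquare_of_jacobiSym_eq_one h1
  have h2 : ∃ x : ℤ, (p : ℤ) ∣ x ^ 2 + b ∧ x % 2 = 1 := by
    have h3 : (p : ℤ) ∣ (y.val : ℤ) ^ 2 + b := by
      rw [← ZMod.intCast_zmod_eq_zero_iff_dvd]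
      push_cast
      rw [ZMod.natCast_zmod_val]
      push_cast at hy
      linear_combination -hy
    rcases Int.emod_two_eq_zero_or_one (y.val : ℤ) with h | h
    · refine ⟨y.val + p, ?_, by omega⟩
      have h4 : ((y.val : ℤ) + p) ^ 2 + b = ((y.val : ℤ) ^ 2 + b) + p * (2 * y.val + p) := by ring
      rw [h4]
      exact dvd_add h3 (dvd_mul_right _ _)
    · exact ⟨y.val, h3, h⟩
  obtain ⟨x, hx, hx2⟩ := h2
  refine ⟨x, ?_⟩
  have hcop : IsCoprime (2 : ℤ) p := by
    rw [show (2 : ℤ) = ((2 : ℕ) : ℤ) by norm_num, Nat.isCoprime_iff_coprime]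
    exact (Nat.coprime_two_left).2 hpo
  refine hcop.mul_dvd ?_ hx
  have h5 : x = 2 * (x / 2) + 1 := by omega
  have h6 : (b : ℤ) = 2 * (b / 2 : ℕ) + 1 := by omega
  rw [h6]
  refine ⟨2 * (x / 2) ^ 2 + 2 * (x / 2) + (b / 2 : ℕ) + 1, ?_⟩
  linear_combination (x + 2 * (x / 2) + 1) * h5

/-- sums of three squares, odd numbers not `7` modulo `8` -/
theorem three_odd {n c : ℕ} (hn2 : n % 2 = 1) (hn1 : 1 < n) (hc : c = 1 ∨ c = 3)
    (h : (c = 3 ∧ (n % 8 = 1 ∨ n % 8 = 5)) ∨ (c = 1 ∧ n % 8 = 3)) :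
    ∃ x y z : ℤ, x ^ 2 + y ^ 2 + z ^ 2 = n := by
  obtain ⟨a, ha⟩ : ∃ a, 2 * a + 1 = c * n := by
    rcases h with ⟨rfl, h⟩ | ⟨rfl, h⟩
    · exact ⟨(3 * n - 1) / 2, by omega⟩
    · exact ⟨(n - 1) / 2, by omega⟩
  have ha2 : a % 2 = 1 := by rcases h with ⟨rfl, h⟩ | ⟨rfl, h⟩ <;> omega
  have ha4 : a % 4 = 1 ∨ c % 4 = 3 := by
    rcases h with ⟨rfl, h⟩ | ⟨rfl, h⟩
    · exact Or.inr rfl
    · left; omega
  have hcop : Nat.Coprime a (4 * n) := by
    apply Nat.Coprime.mul_right
    · have h4 : Nat.Coprime a 2 := (Nat.coprime_two_right).2 (Nat.odd_iff.2 ha2)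
      have := h4.mul_right h4
      simpa using this
    · have h5 : ∀ g, g ∣ a → g ∣ n → g ∣ 1 := by
        intro g hg hg'
        have h6 : g ∣ c * n := hg'.mul_left c
        rw [← ha] at h6
        exact (Nat.dvd_add_right (hg.mul_left 2)).1 h6
      exact Nat.dvd_one.1 (h5 _ (Nat.gcd_dvd_left _ _) (Nat.gcd_dvd_right _ _))
  have : NeZero (4 * n) := ⟨by omega⟩
  obtain ⟨p, hpa, hp, hpe⟩ := Nat.forall_exists_prime_gt_and_eq_mod
    ((ZMod.isUnit_iff_coprime a (4 * n)).2 hcop) a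
  have h7 := (ZMod.natCast_eq_natCast_iff p a (4 * n)).1 hpe
  obtain ⟨j, hj⟩ : ∃ j, p = a + 4 * n * j := by
    have h8 := (Nat.modEq_iff_dvd' hpa.le).1 h7.symm
    obtain ⟨j, hj⟩ := h8
    exact ⟨j, by omega⟩
  set b := 8 * j + c with hb
  have h2p : b * n = 2 * p + 1 := by
    rw [hb, hj, add_mul, ← ha]; ring
  have hpa4 : p % 4 = a % 4 := by
    rw [hj, mul_assoc]; omega
  have hbc : b % 8 = c := by rcases hc with rfl | rfl <;> omega
  have hbo : Odd b := Nat.odd_iff.2 (by rcases hc with rfl | rfl <;> omega)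
  have hsym : jacobiSym (p : ℤ) b = 1 := by
    have h9 : jacobiSym (2 * p : ℤ) b = jacobiSym (-1 : ℤ) b := by
      apply jacobiSym.mod_left'
      have h10 : (2 * p : ℤ) = -1 + b * n := by
        have : ((b * n : ℕ) : ℤ) = ((2 * p + 1 : ℕ) : ℤ) := by rw [h2p]
        push_cast at this
        linarith
      rw [h10, Int.add_mul_emod_self_left]
    rw [jacobiSym.mul_left, jacobiSym.at_two hbo, jacobiSym.at_neg_one hbo] at h9
    rcases hc with rfl | rfl
    · rw [ZMod.χ₈_nat_mod_eight, hbc, ZMod.χ₄_nat_one_mod_four (by omega)] at h9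
      have : ZMod.χ₈ ((1 : ℕ) : ZMod 8) = 1 := by decide
      rw [this, one_mul] at h9
      exact h9
    · rw [ZMod.χ₈_nat_mod_eight, hbc, ZMod.χ₄_nat_three_mod_four (by omega)] at h9
      have : ZMod.χ₈ ((3 : ℕ) : ZMod 8) = -1 := by decide
      rw [this] at h9
      linarith
  obtain ⟨x, hx⟩ := sqrt_of_symbol hp (by omega) (Nat.odd_iff.1 hbo)
    (by
      rcases ha4 with h | h
      · left; omega
      · right; rcases hc with rfl | rfl
        · omega
        · omega) hsym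
  have hz : (b : ℤ) * n = 2 * p + 1 := by exact_mod_cast h2p
  apply three_of_sqrt (n := n) (b := b) (x := x)
  · rcases hc with rfl | rfl <;> omega
  · rw [hz]; have := hp.pos; omega
  · rw [hz]; simpa using hx

/-- sums of three squares, numbers `2` modulo `4` -/
theorem three_even {n : ℕ} (hn : n % 4 = 2) : ∃ x y z : ℤ, x ^ 2 + y ^ 2 + z ^ 2 = n := by
  have hcop : Nat.Coprime (n - 1) (4 * n) := by
    apply Nat.Coprime.mul_right
    · have h4 : Nat.Coprime (n - 1) 2 := (Nat.coprime_two_right).2 (Nat.odd_iff.2 (by omega))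
      have := h4.mul_right h4
      simpa using this
    · have h5 : ∀ g, g ∣ n - 1 → g ∣ n → g ∣ 1 := by
        intro g hg hg'
        have h6 : n = n - 1 + 1 := by omega
        rw [h6] at hg'
        exact (Nat.dvd_add_right hg).1 hg'
      exact Nat.dvd_one.1 (h5 _ (Nat.gcd_dvd_left _ _) (Nat.gcd_dvd_right _ _))
  have : NeZero (4 * n) := ⟨by omega⟩
  obtain ⟨p, hpa, hp, hpe⟩ := Nat.forall_exists_prime_gt_and_eq_mod
    ((ZMod.isUnit_iff_coprime (n - 1) (4 * n)).2 hcop) (n - 1)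
  have h7 := (ZMod.natCast_eq_natCast_iff p (n - 1) (4 * n)).1 hpe
  obtain ⟨j, hj⟩ : ∃ j, p = n - 1 + 4 * n * j := by
    have h8 := (Nat.modEq_iff_dvd' hpa.le).1 h7.symm
    obtain ⟨j, hj⟩ := h8
    exact ⟨j, by omega⟩
  set b := 4 * j + 1 with hb
  have h2p : b * n = p + 1 := by
    have h9 : n - 1 + 1 = n := by omega
    calc b * n = 4 * n * j + n := by rw [hb]; ring
      _ = 4 * n * j + (n - 1 + 1) := by rw [h9]
      _ = p + 1 := by rw [hj]; ring
  have hp4 : p % 4 = 1 := by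
    rw [hj, mul_assoc]; omega
  have hbo : Odd b := Nat.odd_iff.2 (by omega)
  have hsym : jacobiSym (p : ℤ) b = 1 := by
    have h9 : jacobiSym (p : ℤ) b = jacobiSym (-1 : ℤ) b := by
      apply jacobiSym.mod_left'
      have h10 : (p : ℤ) = -1 + b * n := by
        have : ((b * n : ℕ) : ℤ) = ((p + 1 : ℕ) : ℤ) := by rw [h2p]
        push_cast at this
        linarith
      rw [h10, Int.add_mul_emod_self_left]
    rw [h9, jacobiSym.at_neg_one hbo]
    exact ZMod.χ₄_nat_one_mod_four (by omega)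
  obtain ⟨x, hx⟩ := sqrt_of_symbol hp (by omega) (Nat.odd_iff.1 hbo) (Or.inl hp4) hsym
  have hz : (b : ℤ) * n = p + 1 := by exact_mod_cast h2p
  apply three_of_sqrt (n := n) (b := b) (x := x)
  · omega
  · rw [hz]; have := hp.pos; omega
  · rw [hz, add_sub_cancel_right]
    exact (dvd_mul_left (p : ℤ) 2).trans hx

/-- Legendre: numbers which are not `0`, `4` or `7` modulo `8` are sums of three squares -/
theorem three_squares {n : ℕ} (h : n % 8 = 1 ∨ n % 8 = 2 ∨ n % 8 = 3 ∨ n % 8 = 5 ∨ n % 8 = 6) :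
    ∃ x y z : ℤ, x ^ 2 + y ^ 2 + z ^ 2 = n := by
  by_cases h2 : n % 2 = 0
  · exact three_even (by omega)
  · by_cases h1 : n = 1
    · subst h1
      exact ⟨1, 0, 0, by norm_num⟩
    · by_cases h3 : n % 8 = 3
      · exact three_odd (c := 1) (by omega) (by omega) (Or.inl rfl) (Or.inr ⟨rfl, h3⟩)
      · exact three_odd (c := 3) (by omega) (by omega) (Or.inr rfl) (Or.inl ⟨rfl, by omega⟩)

/-- the form asked for in TM32 -/
theorem sum_three_squares (n : ℕ) (h8 : n % 8 = 1) :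
    ∃ x y z : ℤ, x ^ 2 + y ^ 2 + z ^ 2 = n :=
  three_squares (Or.inl h8)

/-- twice an odd number is a sum of three squares -/
theorem sum_three_squares_two (n : ℕ) (h2 : n % 2 = 1) :
    ∃ x y z : ℤ, x ^ 2 + y ^ 2 + z ^ 2 = 2 * n := by
  obtain ⟨x, y, z, h⟩ := three_even (n := 2 * n) (by omega)
  exact ⟨x, y, z, by rw [h]; push_cast; ring⟩

/-- an odd number has the form `x² + y² + 2 z²` -/
theorem sum_two_squares_add_two (n : ℕ) (h2 : n % 2 = 1) :
    ∃ x y z : ℤ, (n : ℤ) = x ^ 2 + y ^ 2 + 2 * z ^ 2 := by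
  obtain ⟨x, y, z, h⟩ := sum_three_squares_two n h2
  have key : ∀ x y z : ℤ, x ^ 2 + y ^ 2 + z ^ 2 = 2 * n → x % 2 = y % 2 →
      ∃ x y z : ℤ, (n : ℤ) = x ^ 2 + y ^ 2 + 2 * z ^ 2 := by
    intro x y z h hxy
    obtain ⟨s, hs⟩ : ∃ s, x = y + 2 * s := ⟨(x - y) / 2, by omega⟩
    subst hs
    have hz : z % 2 = 0 := by
      rcases Int.emod_two_eq_zero_or_one z with h1 | h1
      · exact h1
      · exfalso
        obtain ⟨w, hw⟩ : ∃ w, z = 2 * w + 1 := ⟨z / 2, by omega⟩
        subst hw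
        ring_nf at h
        omega
    obtain ⟨w, hw⟩ : ∃ w, z = 2 * w := ⟨z / 2, by omega⟩
    subst hw
    refine ⟨y + s, s, w, ?_⟩
    linarith
  rcases Int.emod_two_eq_zero_or_one x with hx | hx <;>
    rcases Int.emod_two_eq_zero_or_one y with hy | hy <;>
    rcases Int.emod_two_eq_zero_or_one z with hz | hz
  · exact key x y z h (by omega)
  · exact key x y z h (by omega)
  · exact key x z y (by linarith) (by omega)
  · exact key y z x (by linarith) (by omega)
  · exact key y z x (by linarith) (by omega)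
  · exact key x z y (by linarith) (by omega)
  · exact key x y z h (by omega)
  · exact key x y z h (by omega)

end Pool.Agent.Lib_helper47.G3
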